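import Pool.Agent.Helper74.OKA.Defs

set_option autoImplicit false

open Set Metric Topology MeasureTheory
open scoped Manifold ContDiff

namespace Pool.Agent.Helper71.OKA

open Pool.Agent.Helper74.OKA

theorem hasSprays_self (F : Type) [NormedAddCommGroup F] [NormedSpace ℂ F]
    [FiniteDimensional ℂ F] : HasSprays F F := by
  intro E _ _ _ X f U hX hXc hU hXU hf
  rw [mdifferentiableOn_iff_differentiableOn] at hf
  have hΘ : ContinuousOn (fun x : E × F => x.2 - f x.1) (U ×ˢ univ) :=
    continuousOn_snd.sub (hf.continuousOn.comp continuousOn_fst (fun x hx => hx.1))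
  refine ⟨U, 1, fun x => f x.1 + x.2, fun x => x.2 - f x.1,
    (U ×ˢ univ) ∩ (fun x : E × F => x.2 - f x.1) ⁻¹' ball 0 1, hU, hXU, one_pos, ?_, ?_, ?_, ?_,
    ?_, ?_, ?_⟩
  · rw [mdifferentiableOn_iff_differentiableOn]
    exact (hf.comp differentiableOn_fst (fun x hx => hx.1)).add differentiableOn_snd
  · intro z _
    simp
  · exact hΘ.isOpen_inter_preimage (hU.prod isOpen_univ) isOpen_ball
  · exact hΘ.mono inter_subset_left
  · intro z hz t ht
    refine ⟨⟨⟨hz, mem_univ _⟩, ?_⟩, ?_⟩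
    · simpa using ht
    · simp
  · rintro z y ⟨⟨hz, -⟩, hy⟩
    exact ⟨hz, hy, by simp⟩
  · intro Z _ _ _ D q g hD hq hg hN
    rw [mdifferentiableOn_iff_differentiableOn] at hg
    exact hg.sub (hf.comp hq (fun x hx => (hN x hx).1.1))

end Pool.Agent.Helper71.OKA
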