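import Pool.Agent.Helper74.OKA.St.A01
import Pool.Agent.Helper74.OKA.St.A3

set_option autoImplicit false

open Set Metric Topology MeasureTheory
open scoped Manifold ContDiff

namespace Pool.Agent.Helper71.OKA

open Pool.Agent.Helper74.OKA

namespace A4

variable {G F : Type} [NormedAddCommGroup G] [NormedSpace ℂ G] [FiniteDimensional ℂ G]
  [NormedAddCommGroup F] [NormedSpace ℂ F] [FiniteDimensional ℂ F]

theorem isOpen_Cs (ε R : ℝ) : IsOpen (Cs ε R) := by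
  have h1 : IsOpen {w : ℂ | |w.re| < ε} :=
    isOpen_lt (Complex.continuous_re.abs) continuous_const
  have h2 : IsOpen {w : ℂ | |w.im| < R} :=
    isOpen_lt (Complex.continuous_im.abs) continuous_const
  exact h1.inter h2

theorem lip {f : F → F} {δ : ℝ} (hf : DifferentiableOn ℂ f (ball 0 1))
    (hb : ∀ s ∈ ball (0 : F) 1, ‖f s‖ ≤ δ) {s s' : F} (hs : s ∈ ball (0 : F) (3 / 4))
    (hs' : s' ∈ ball (0 : F) (3 / 4)) : ‖f s - f s'‖ ≤ 4 * δ * ‖s - s'‖ := by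
  have hsub : ∀ x ∈ ball (0 : F) (3 / 4), ball x (1 / 4) ⊆ ball (0 : F) 1 := by
    intro x hx
    apply ball_subset_ball'
    rw [mem_ball] at hx
    linarith
  refine (convex_ball (0 : F) (3 / 4)).norm_image_sub_le_of_norm_fderiv_le (𝕜 := ℂ) ?_ ?_ hs' hs
  · intro x hx
    exact (hf.differentiableAt (isOpen_ball.mem_nhds
      (hsub x hx (mem_ball_self (by norm_num)))))
  · intro x hx
    have h := norm_fderiv_le (z := x) (r := 1 / 4) (M := δ) (by norm_num) (hf.mono (hsub x hx))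
      (fun y hy => hb y (hsub x hx hy))
    calc ‖fderiv ℂ f x‖ ≤ δ / (1 / 4) := h
      _ = 4 * δ := by ring

end A4

open A4 in
theorem nonlinear_split (ε R : ℝ) (hε : 0 < ε) (hR : 0 < R) (G F : Type) [NormedAddCommGroup G]
    [NormedSpace ℂ G] [FiniteDimensional ℂ G] [NormedAddCommGroup F] [NormedSpace ℂ F]
    [FiniteDimensional ℂ F] (ρ : ℝ) (hρ : 0 < ρ) :
    ∃ δ > 0, ∀ (P : Set G) (η : ℂ × G × F → F), IsOpen P →
      DifferentiableOn ℂ η (Cs ε R ×ˢ P ×ˢ ball 0 1) →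
      (∀ x ∈ Cs ε R ×ˢ P ×ˢ ball (0 : F) 1, ‖η x‖ ≤ δ) →
      ∃ a b : ℂ × G × F → F,
        DifferentiableOn ℂ a (As ε R ×ˢ P ×ˢ ball 0 (1 / 2)) ∧
        DifferentiableOn ℂ b (Bs ε R ×ˢ P ×ˢ ball 0 (1 / 2)) ∧
        (∀ x ∈ As ε R ×ˢ P ×ˢ ball (0 : F) (1 / 2), ‖a x‖ ≤ ρ) ∧
        (∀ x ∈ Bs ε R ×ˢ P ×ˢ ball (0 : F) (1 / 2), ‖b x‖ ≤ ρ) ∧
        (∀ w ∈ Cs ε R, ∀ g ∈ P, ∀ s ∈ ball (0 : F) (1 / 2),
          b (w, g, s) = a (w, g, s) + η (w, g, s + a (w, g, s))) ∧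
        ∀ g ∈ P, (∀ w ∈ Cs ε R, η (w, g, 0) = 0) →
          (∀ w ∈ As ε R, a (w, g, 0) = 0) ∧ ∀ w ∈ Bs ε R, b (w, g, 0) = 0 := by
  obtain ⟨K, 𝒜, ℬ, hK, hsplit, hlip, hA0, hB0⟩ := exists_split ε R hε hR (G × F) F
  refine ⟨min ρ (1 / 8) / K, by positivity, ?_⟩
  set δ : ℝ := min ρ (1 / 8) / K with hδdef
  have hδ : 0 < δ := by positivity
  have hKδ : K * δ = min ρ (1 / 8) := by
    rw [hδdef]; field_simp
  have hKδρ : K * δ ≤ ρ := by rw [hKδ]; exact min_le_left _ _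
  have hKδ8 : K * δ ≤ 1 / 8 := by rw [hKδ]; exact min_le_right _ _
  intro P η hP hη hηb
  set P' : Set (G × F) := P ×ˢ ball 0 (1 / 2) with hP'
  have hP'o : IsOpen P' := hP.prod isOpen_ball
  have hCA : Cs ε R ⊆ As ε R := fun w hw => ⟨(abs_lt.mp hw.1).2, hw.2⟩
  have hCo : IsOpen (Cs ε R) := isOpen_Cs ε R
  have h0HB : ∀ M : ℝ, 0 ≤ M → HB (F := F) (Cs ε R) P' M 0 := fun M hM =>
    ⟨differentiableOn_const (0 : F), fun x _ => by simpa using hM⟩
  -- bound for 𝒜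
  have hAb : ∀ c, HB (Cs ε R) P' δ c → ∀ w ∈ As ε R, ∀ p ∈ P', ‖𝒜 c (w, p)‖ ≤ K * δ := by
    intro c hc w hw p hp
    have := (hlip P' c 0 δ hP'o hc (h0HB δ hδ.le) p hp δ (fun w hw => by
      simpa using hc.2 (w, p) ⟨hw, hp⟩)).1 w hw
    simpa [hA0] using this
  have hBb : ∀ c, HB (Cs ε R) P' δ c → ∀ w ∈ Bs ε R, ∀ p ∈ P', ‖ℬ c (w, p)‖ ≤ K * δ := by
    intro c hc w hw p hp
    have := (hlip P' c 0 δ hP'o hc (h0HB δ hδ.le) p hp δ (fun w hw => by
      simpa using hc.2 (w, p) ⟨hw, hp⟩)).2 w hw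
    simpa [hB0] using this
  -- the point stays in the ball
  have hin : ∀ s ∈ ball (0 : F) (1 / 2), ∀ t : F, ‖t‖ ≤ K * δ → s + t ∈ ball (0 : F) (3 / 4) := by
    intro s hs t ht
    rw [mem_ball_zero_iff] at hs ⊢
    calc ‖s + t‖ ≤ ‖s‖ + ‖t‖ := norm_add_le _ _
      _ < 1 / 2 + 1 / 4 := by linarith
      _ = 3 / 4 := by norm_num
  have hin1 : ball (0 : F) (3 / 4) ⊆ ball (0 : F) 1 := ball_subset_ball (by norm_num)
  -- the map c ↦ η (w, g, s + 𝒜 c)
  set T : (ℂ × G × F → F) → ℂ × G × F → F := fun c x => η (x.1, x.2.1, x.2.2 + 𝒜 c x) with hT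
  have hTHB : ∀ c, HB (Cs ε R) P' δ c → HB (Cs ε R) P' δ (T c) := by
    intro c hc
    have hAd := (hsplit P' c δ hP'o hc).1
    constructor
    · have hmaps : MapsTo (fun x : ℂ × G × F => (x.1, x.2.1, x.2.2 + 𝒜 c x))
          (Cs ε R ×ˢ P') (Cs ε R ×ˢ P ×ˢ ball 0 1) := by
        rintro ⟨w, g, s⟩ ⟨hw, hg, hs⟩
        exact ⟨hw, hg, hin1 (hin s hs _ (hAb c hc w (hCA hw) (g, s) ⟨hg, hs⟩))⟩
      refine hη.comp ?_ hmaps
      refine DifferentiableOn.prodMk differentiableOn_fst (DifferentiableOn.prodMk ?_ ?_)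
      · exact (differentiable_fst.comp differentiable_snd).differentiableOn
      · exact ((differentiable_snd.comp differentiable_snd).differentiableOn).add
          (hAd.mono (prod_mono hCA subset_rfl))
    · rintro ⟨w, g, s⟩ ⟨hw, hg, hs⟩
      exact hηb _ ⟨hw, hg, hin1 (hin s hs _ (hAb c hc w (hCA hw) (g, s) ⟨hg, hs⟩))⟩
  have hTlip : ∀ c c', HB (Cs ε R) P' δ c → HB (Cs ε R) P' δ c' → ∀ p ∈ P', ∀ d : ℝ,
      (∀ w ∈ Cs ε R, ‖c (w, p) - c' (w, p)‖ ≤ d) →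
      ∀ w ∈ Cs ε R, ‖T c (w, p) - T c' (w, p)‖ ≤ d / 2 := by
    rintro c c' hc hc' ⟨g, s⟩ hp d hd w hw
    have h1 := (hlip P' c c' δ hP'o hc hc' (g, s) hp d hd).1 w (hCA hw)
    have hf : DifferentiableOn ℂ (fun t : F => η (w, g, t)) (ball 0 1) := by
      refine hη.comp ?_ (fun t ht => ⟨hw, hp.1, ht⟩)
      exact (DifferentiableOn.prodMk (differentiableOn_const _)
        (DifferentiableOn.prodMk (differentiableOn_const _) differentiableOn_id))
    have h2 := lip hf (fun t ht => hηb _ ⟨hw, hp.1, ht⟩)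
      (hin s hp.2 _ (hAb c hc w (hCA hw) (g, s) hp))
      (hin s hp.2 _ (hAb c' hc' w (hCA hw) (g, s) hp))
    calc ‖T c (w, g, s) - T c' (w, g, s)‖
        ≤ 4 * δ * ‖s + 𝒜 c (w, g, s) - (s + 𝒜 c' (w, g, s))‖ := h2
      _ = 4 * δ * ‖𝒜 c (w, g, s) - 𝒜 c' (w, g, s)‖ := by rw [add_sub_add_left_eq_sub]
      _ ≤ 4 * δ * (K * d) := by gcongr
      _ = 4 * (K * δ) * d := by ring
      _ ≤ 4 * (1 / 8) * d := by
          have : 0 ≤ d := (norm_nonneg _).trans (hd w hw)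
          gcongr
      _ = d / 2 := by ring
  -- the sequence
  set c : ℕ → ℂ × G × F → F := fun k => T^[k] 0 with hc
  have hcs : ∀ k, c (k + 1) = T (c k) := fun k => Function.iterate_succ_apply' T k 0
  have hcHB : ∀ k, HB (Cs ε R) P' δ (c k) := by
    intro k
    induction k with
    | zero => exact h0HB δ hδ.le
    | succ k ih => rw [hcs]; exact hTHB _ ih
  have hcd : ∀ k, ∀ p ∈ P', ∀ w ∈ Cs ε R, ‖c (k + 1) (w, p) - c k (w, p)‖ ≤ δ / 2 / 2 ^ k * 2 := by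
    intro k
    induction k with
    | zero =>
        intro p hp w hw
        have h := (hcHB 1).2 (w, p) ⟨hw, hp⟩
        simpa [hc] using h
    | succ k ih =>
        intro p hp w hw
        have h := hTlip (c (k + 1)) (c k) (hcHB _) (hcHB _) p hp _ (ih p hp) w hw
        rw [← hcs, ← hcs] at h
        refine h.trans (le_of_eq ?_)
        rw [pow_succ]; ring
  -- the limit
  have hdist : ∀ p ∈ P', ∀ w ∈ Cs ε R, ∀ k, dist (c k (w, p)) (c (k + 1) (w, p))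
      ≤ 2 * δ / 2 / 2 ^ k := by
    intro p hp w hw k
    rw [dist_comm, dist_eq_norm]
    refine (hcd k p hp w hw).trans (le_of_eq ?_)
    ring
  have hlim : ∀ x : ℂ × G × F, ∃ y : F, x ∈ Cs ε R ×ˢ P' →
      Filter.Tendsto (fun k => c k x) Filter.atTop (𝓝 y) := by
    rintro ⟨w, p⟩
    by_cases hx : (w, p) ∈ Cs ε R ×ˢ P'
    · obtain ⟨y, hy⟩ := cauchySeq_tendsto_of_complete
        (cauchySeq_of_le_geometric_two (hdist p hx.2 w hx.1))
      exact ⟨y, fun _ => hy⟩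
    · exact ⟨0, fun h => absurd h hx⟩
  choose cl hcl using hlim
  have hcl' : ∀ p ∈ P', ∀ w ∈ Cs ε R, ∀ k, ‖c k (w, p) - cl (w, p)‖ ≤ 2 * δ / 2 ^ k := by
    intro p hp w hw k
    rw [← dist_eq_norm]
    exact dist_le_of_le_geometric_two_of_tendsto (hdist p hp w hw) (hcl (w, p) ⟨hw, hp⟩) k
  have h2k : Filter.Tendsto (fun k : ℕ => 2 * δ / 2 ^ k) Filter.atTop (𝓝 0) := by
    have := (tendsto_pow_atTop_nhds_zero_of_lt_one (r := (1 / 2 : ℝ)) (by norm_num)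
      (by norm_num)).const_mul (2 * δ)
    simpa [div_eq_mul_inv] using this
  have hunif : TendstoUniformlyOn c cl Filter.atTop (Cs ε R ×ˢ P') := by
    rw [Metric.tendstoUniformlyOn_iff]
    intro e he
    filter_upwards [h2k.eventually (gt_mem_nhds he)] with k hk
    rintro ⟨w, p⟩ ⟨hw, hp⟩
    rw [dist_comm, dist_eq_norm]
    exact (hcl' p hp w hw k).trans_lt hk
  have hclHB : HB (Cs ε R) P' δ cl := by
    refine ⟨differentiableOn_of_tendstoLocallyUniformlyOn (hCo.prod hP'o)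
      (fun k => (hcHB k).1) hunif.tendstoLocallyUniformlyOn, ?_⟩
    intro x hx
    exact le_of_tendsto (hcl x hx).norm (Filter.Eventually.of_forall fun k => (hcHB k).2 x hx)
  -- fixed point
  have hfix : ∀ p ∈ P', ∀ w ∈ Cs ε R, cl (w, p) = T cl (w, p) := by
    intro p hp w hw
    have h1 : Filter.Tendsto (fun k => c (k + 1) (w, p)) Filter.atTop (𝓝 (cl (w, p))) :=
      (hcl (w, p) ⟨hw, hp⟩).comp (Filter.tendsto_add_atTop_nat 1)
    have h2 : Filter.Tendsto (fun k => c (k + 1) (w, p)) Filter.atTop (𝓝 (T cl (w, p))) := by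
      rw [tendsto_iff_norm_sub_tendsto_zero]
      have h3 : Filter.Tendsto (fun k : ℕ => 2 * δ / 2 ^ k / 2) Filter.atTop (𝓝 0) := by
        simpa using h2k.div_const 2
      refine squeeze_zero (fun k => norm_nonneg _) (fun k => ?_) h3
      rw [hcs]
      exact hTlip (c k) cl (hcHB k) hclHB p hp _ (fun w hw => hcl' p hp w hw k) w hw
    exact tendsto_nhds_unique h1 h2
  obtain ⟨hAd, hBd, hAB⟩ := hsplit P' cl δ hP'o hclHB
  refine ⟨𝒜 cl, ℬ cl, hAd, hBd, ?_, ?_, ?_, ?_⟩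
  · rintro ⟨w, p⟩ ⟨hw, hp⟩
    exact (hAb cl hclHB w hw p hp).trans hKδρ
  · rintro ⟨w, p⟩ ⟨hw, hp⟩
    exact (hBb cl hclHB w hw p hp).trans hKδρ
  · intro w hw g hg s hs
    have h1 := hAB (w, g, s) ⟨hw, hg, hs⟩
    have h2 := hfix (g, s) ⟨hg, hs⟩ w hw
    rw [eq_add_of_sub_eq h1, h2, add_comm]
  · intro g hg h0
    have hp0 : ((g, 0) : G × F) ∈ P' := ⟨hg, mem_ball_self (by norm_num)⟩
    have hck : ∀ k, ∀ w ∈ Cs ε R, c k (w, g, 0) = 0 := by
      intro k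
      induction k with
      | zero => intro w _; rfl
      | succ k ih =>
          intro w hw
          have h := (hlip P' (c k) 0 δ hP'o (hcHB k) (h0HB δ hδ.le) (g, 0) hp0 0
            (fun w hw => by simp [ih w hw])).1 w (hCA hw)
          have h' : 𝒜 (c k) (w, g, 0) = 0 := by
            have : ‖𝒜 (c k) (w, g, 0)‖ ≤ 0 := by simpa [hA0] using h
            exact norm_le_zero_iff.mp this
          rw [hcs]
          change η (w, g, 0 + 𝒜 (c k) (w, g, 0)) = 0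
          rw [h', add_zero]
          exact h0 w hw
    have hcl0 : ∀ w ∈ Cs ε R, cl (w, g, 0) = 0 := by
      intro w hw
      have h := hcl (w, g, 0) ⟨hw, hp0⟩
      simp only [hck _ w hw] at h
      exact (tendsto_nhds_unique h tendsto_const_nhds)
    have h := hlip P' cl 0 δ hP'o hclHB (h0HB δ hδ.le) (g, 0) hp0 0
            (fun w hw => by simp [hcl0 w hw])
    constructor
    · intro w hw
      have := h.1 w hw
      have h' : ‖𝒜 cl (w, g, 0)‖ ≤ 0 := by simpa [hA0] using this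
      exact norm_le_zero_iff.mp h'
    · intro w hw
      have := h.2 w hw
      have h' : ‖ℬ cl (w, g, 0)‖ ≤ 0 := by simpa [hB0] using this
      exact norm_le_zero_iff.mp h'

end Pool.Agent.Helper71.OKA
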